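import Pool.Agent.Run7.h748.Structure

/-!
If the dominating number is the continuum then both never cardinals are at most the
cofinality of the continuum.
-/

namespace Pool.Agent.Results.MP_598a87_lc.CofContinuum

open Cardinal Run7.h748

theorem result (h : dNum = 2 ^ ℵ₀) : max va vcp ≤ ((2 : Cardinal.{0}) ^ ℵ₀).ord.cof := by
  have key : va ≤ ((2 : Cardinal.{0}) ^ ℵ₀).ord.cof ∧ vcp ≤ ((2 : Cardinal.{0}) ^ ℵ₀).ord.cof := by
    refine va_vcp_le fun A hA hdom => ?_
    have h0 : ℵ₀ ≤ #A := by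
      rw [hA, Ordinal.aleph0_le_cof_iff, Ordinal.one_lt_cof_iff]
      exact isSuccLimit_ord (cantor ℵ₀).le
    obtain ⟨D, hD, hdomD⟩ := dominating_lt_continuum h0 hA.ge hdom
    have h1 := dNum_le_of_dominating h0 D hdomD
    rw [h] at h1
    exact absurd hD (not_lt.2 h1)
  exact max_le key.1 key.2

end Pool.Agent.Results.MP_598a87_lc.CofContinuum
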