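import Pool.Agent.Run7.h748.Bounds

/-!
Under `2 ^ ℵ₀ < 2 ^ ℵ₁`, if no cardinal above the bounding number and at most the localization
number has uncountable cofinality at most the bounding number (for example if the localization
number is less than `ℵ_{ω₁}`), then both never cardinals are at most the bounding number.
-/

namespace Pool.Agent.Results.MP_598a87_lc.Localization

open Cardinal Run7.h748

theorem result (h : (2 : Cardinal.{0}) ^ ℵ₀ < 2 ^ ℵ₁)
    (hloc : ∀ l : Cardinal.{0}, bNum < l → l ≤ locNum → l.ord.cof < ℵ₁ ∨ bNum < l.ord.cof) :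
    max va vcp ≤ bNum := by
  have key : va ≤ bNum ∧ vcp ≤ bNum := by
    refine va_vcp_le fun A hA hdom => ?_
    have h1 : ℵ₁ ≤ #A := by rw [hA]; exact aleph1_le_bNum
    have h0 : ℵ₀ ≤ #A := (aleph0_le_aleph 1).trans h1
    have h2 : (2 : Cardinal.{0}) ^ #A ≤ 2 ^ ℵ₀ := by
      refine main_thin h0 hdom hA.ge ?_
      rintro ⟨l, hl1, hl2, hl3, hl4⟩
      rw [hA] at hl1 hl4
      rcases hloc l hl1 hl2 with h5 | h5
      · exact absurd hl3 (not_le.2 h5)
      · exact absurd hl4 (not_le.2 h5)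
    have h3 : (2 : Cardinal.{0}) ^ ℵ₁ ≤ 2 ^ #A := power_le_power_left two_ne_zero h1
    exact absurd (h.trans_le (h3.trans h2)) (lt_irrefl _)
  exact max_le key.1 key.2

/-- The special case of a localization number below `ℵ_{ω₁}`. -/
theorem special (h : (2 : Cardinal.{0}) ^ ℵ₀ < 2 ^ ℵ₁) (hloc : locNum < ℵ_ (Ordinal.omega 1)) :
    max va vcp ≤ bNum := by
  refine result h fun l h1 h2 => ?_
  by_cases h3 : l.ord.cof < ℵ₁
  · exact Or.inl h3
  · right
    rw [cof_eq_of_lt_aleph_omega1 (h2.trans_lt hloc) (not_lt.1 h3)]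
    exact h1

end Pool.Agent.Results.MP_598a87_lc.Localization
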