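import Pool.Agent.Run7.h748.Bounds

/-!
Under `2 ^ ℵ₀ < 2 ^ ℵ₁` both never cardinals are at most the maximum of the bounding number,
the uniformity of the ideal generated by the closed null sets and the uniformity of the
strong measure zero sets; in particular at most `max {b, non(N)}`.
-/

namespace Pool.Agent.Results.MP_598a87_lc.MaxBound

open Cardinal Run7.h748

theorem result (h : (2 : Cardinal.{0}) ^ ℵ₀ < 2 ^ ℵ₁) :
    max va vcp ≤ max (max bNum nonE) nonSN ∧ max (max bNum nonE) nonSN ≤ max bNum nonN := by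
  refine ⟨?_, ?_⟩
  · have key : va ≤ max (max bNum nonE) nonSN ∧ vcp ≤ max (max bNum nonE) nonSN := by
      refine va_vcp_le fun A hA hdom => ?_
      have hb : bNum ≤ #A := by rw [hA]; exact (le_max_left _ _).trans (le_max_left _ _)
      have hE : nonE ≤ #A := by rw [hA]; exact (le_max_right _ _).trans (le_max_left _ _)
      have hS : nonSN ≤ #A := by rw [hA]; exact le_max_right _ _
      have h1 : ℵ₁ ≤ #A := aleph1_le_bNum.trans hb
      have h0 : ℵ₀ ≤ #A := (aleph0_le_aleph 1).trans h1
      have h2 : (2 : Cardinal.{0}) ^ #A ≤ 2 ^ ℵ₀ := by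
        refine main_hash h0 hdom hb hE ?_
        rintro ⟨l, hl1, hl2, -, -⟩
        exact absurd (hl1.trans_le hl2) (not_lt.2 hS)
      have h3 : (2 : Cardinal.{0}) ^ ℵ₁ ≤ 2 ^ #A := power_le_power_left two_ne_zero h1
      exact absurd (h.trans_le (h3.trans h2)) (lt_irrefl _)
    exact max_le key.1 key.2
  · refine max_le (max_le (le_max_left _ _) ?_) ?_
    · exact nonE_le_nonN.trans (le_max_right _ _)
    · exact nonSN_le_nonN.trans (le_max_right _ _)

end Pool.Agent.Results.MP_598a87_lc.MaxBound
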