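import Pool.Agent.Run7.h748.Structure

/-!
The structure of a hypothetical counterexample.
-/

namespace Pool.Agent.Results.MP_598a87_lc.StructureTheorem

open Cardinal Run7.h748

theorem result (h : (2 : Cardinal.{0}) ^ ℵ₀ < 2 ^ ℵ₁) (A : Set (Set ℕ)) (hA : IsAD A)
    (hunc : ℵ₁ ≤ #A) (hprop : PropertyA (Psi A) ∨ CtblyParacompact (Psi A)) :
    ∃ l : Cardinal.{0}, #A < l ∧ l ≤ 2 ^ ℵ₀ ∧ l.ord.cof = ℵ₁ ∧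
      (∀ D : Set (A → ℕ), l ≤ #D → ∀ ν < l, ∃ Φ : A → ℕ, ν < #{x | x ∈ D ∧ ∀ a, x a ≤ Φ a}) ∧
      (∀ C : (ℕ → ℕ) → Set l.ord.ToType, (∀ y, #(C y) < l) →
        ∃ X : Set l.ord.ToType, #X ≤ ℵ₁ ∧ ∀ y, ¬ X ⊆ C y) ∧
      (l = 2 ^ ℵ₀ → ∃ D : Set (A → ℕ), #D < 2 ^ ℵ₀ ∧ ∀ f : A → ℕ, ∃ g ∈ D, ∀ a, f a ≤ g a) :=
  structure_of_dom h hunc (dom_of_or hA hprop)

end Pool.Agent.Results.MP_598a87_lc.StructureTheorem
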